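import Pool.Agent.Helper62.Bil.Near

namespace Pool.Agent.Results.MP_7fd4b2_an.ClosedDoors

open Bil62 Bil62.ConvexPolygon

open scoped ComplexConjugate

/-- Let `P` be a convex polygon and `a_i` a side such that all other sides are parallel or
perpendicular to one fixed line, except possibly the two neighbours of `a_i`, which may make equal
or opposite angles with this line.  Then an invariant set that contains `Φ_i` is all of `Φ`. -/
theorem result (n : ℕ) [NeZero n] (P : ConvexPolygon n) (i : Fin n) (w ζ : ℂ) (hw : ‖w‖ = 1)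
    (hζ : ‖ζ‖ = 1)
    (hD : ∀ k, k ≠ i → (P.dir k ^ 2 = w ∨ P.dir k ^ 2 = -w) ∨
      ((k = i + 1 ∨ k + 1 = i) ∧ (P.dir k ^ 2 = w * ζ ∨ P.dir k ^ 2 = w * conj ζ)))
    (M : Set (Fin n × ℝ × ℝ)) (hM : P.Invariant M) (hi : P.mu ({z | z.1 = i} \ M) = 0) :
    P.mu Mᶜ = 0 :=
  saturates_of_doors hw hζ hD M hM hi

end Pool.Agent.Results.MP_7fd4b2_an.ClosedDoors
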