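import Pool.Agent.Helper62.Bil.Near

namespace Pool.Agent.Results.MP_7fd4b2_an.ManyDirections

open Bil62 Bil62.ConvexPolygon

open MeasureTheory

/-- If an invariant set `M` contains `Φ_i`, then almost every point outside `M` has a forward
orbit with infinitely many directions. -/
theorem result (n : ℕ) [NeZero n] (P : ConvexPolygon n) (i : Fin n)
    (M : Set (Fin n × ℝ × ℝ)) (hM : P.Invariant M) (hi : P.mu ({z | z.1 = i} \ M) = 0) :
    ∀ᵐ z ∂P.mu, z ∉ M → (Set.range fun m : ℕ => P.vel (P.billiardMap^[m] z)).Infinite := by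
  filter_upwards [(P.trap_of_invariant hM hi).infinite_fwd, ae_iterate (P := P)] with z h1 h2 hz
  have h3 := h1 hz
  have e : (fun m : ℕ => P.vel (P.phi^[m] z)) = fun m : ℕ => P.vel (P.billiardMap^[m] z) := by
    funext m
    rw [h2 m]
  rwa [e] at h3

end Pool.Agent.Results.MP_7fd4b2_an.ManyDirections
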